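import Pool.Agent.N682.MS.Stm

/-!
PROJECT MS (helper682), leaf LEV: endomorphism of the free algebra and iterated matrix rings
(helper749).
-/

set_option autoImplicit false

namespace Pool.Agent.N749.MS

open Matrix Pool.Agent.N682.MS

noncomputable section

/-- generators -/
def ge : AA := FreeAlgebra.ι (ZMod 257) 0
def gf : AA := FreeAlgebra.ι (ZMod 257) 1
def gb : AA := FreeAlgebra.ι (ZMod 257) 2
def gc : AA := FreeAlgebra.ι (ZMod 257) 3

/-- the values of the endomorphism on the generators -/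
def gPhi : Fin 4 → AA :=
  ![ge * gf * gb + gf * (ge * gf * gb) * ge, ge * gf * gc + gf * (ge * gf * gc) * ge,
    gf * ge * gb + ge * (gf * ge * gb) * gf, gf * ge * gc + ge * (gf * ge * gc) * gf]

/-- the endomorphism -/
def PhiA : AA →ₐ[ZMod 257] AA := FreeAlgebra.lift (ZMod 257) gPhi

structure LS where
  R : Type
  [ring : Ring R]
  [alg : Algebra (ZMod 257) R]
  [fin : Finite R]
  [nt : Nontrivial R]
  ev : AA →ₐ[ZMod 257] R

attribute [instance] LS.ring LS.alg LS.fin LS.nt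

/-- values of the next evaluation on the generators -/
def LS.gv (L : LS) : Fin 4 → Matrix (Fin 2) (Fin 2) L.R :=
  ![!![0, 1; 0, 0], !![0, 0; 1, 0], !![L.ev ge, 0; 0, L.ev gb], !![L.ev gf, 0; 0, L.ev gc]]

def LS.next (L : LS) : LS where
  R := Matrix (Fin 2) (Fin 2) L.R
  fin := inferInstanceAs (Finite (Fin 2 → Fin 2 → L.R))
  nt := inferInstanceAs (Nontrivial (Fin 2 → Fin 2 → L.R))
  ev := FreeAlgebra.lift (ZMod 257) L.gv

instance : Fact (Nat.Prime 257) := ⟨by norm_num⟩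

def LS.base : LS where
  R := ZMod 257
  ev := FreeAlgebra.lift (ZMod 257) 0

def LSn : ℕ → LS
  | 0 => LS.base
  | r + 1 => (LSn r).next

theorem next_ι (L : LS) (i : Fin 4) :
    (FreeAlgebra.lift (ZMod 257) L.gv) (FreeAlgebra.ι (ZMod 257) i) = L.gv i :=
  FreeAlgebra.lift_ι_apply _ _

theorem next_e (L : LS) : (FreeAlgebra.lift (ZMod 257) L.gv) ge = !![0, 1; 0, 0] := next_ι L 0
theorem next_f (L : LS) : (FreeAlgebra.lift (ZMod 257) L.gv) gf = !![0, 0; 1, 0] := next_ι L 1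
theorem next_b (L : LS) : (FreeAlgebra.lift (ZMod 257) L.gv) gb
    = !![L.ev ge, 0; 0, L.ev gb] := next_ι L 2
theorem next_c (L : LS) : (FreeAlgebra.lift (ZMod 257) L.gv) gc
    = !![L.ev gf, 0; 0, L.ev gc] := next_ι L 3

theorem m1 {R : Type} [Ring R] (x y : R) :
    (!![0, 1; 0, 0] * !![0, 0; 1, 0] * !![x, 0; 0, y]
      + !![0, 0; 1, 0] * (!![0, 1; 0, 0] * !![0, 0; 1, 0] * !![x, 0; 0, y]) * !![0, 1; 0, 0]
      : Matrix (Fin 2) (Fin 2) R) = Matrix.scalar (Fin 2) x := by
  ext i j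
  fin_cases i <;> fin_cases j <;> simp

theorem m2 {R : Type} [Ring R] (x y : R) :
    (!![0, 0; 1, 0] * !![0, 1; 0, 0] * !![x, 0; 0, y]
      + !![0, 1; 0, 0] * (!![0, 0; 1, 0] * !![0, 1; 0, 0] * !![x, 0; 0, y]) * !![0, 0; 1, 0]
      : Matrix (Fin 2) (Fin 2) R) = Matrix.scalar (Fin 2) y := by
  ext i j
  fin_cases i <;> fin_cases j <;> simp

theorem shiftA (L : LS) : (FreeAlgebra.lift (ZMod 257) L.gv).comp PhiA
    = (Matrix.scalarAlgHom (Fin 2) (ZMod 257) (α := L.R)).comp L.ev := by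
  apply FreeAlgebra.hom_ext
  funext i
  have h0 : (PhiA : AA → AA) (FreeAlgebra.ι (ZMod 257) i) = gPhi i :=
    FreeAlgebra.lift_ι_apply _ _
  show (FreeAlgebra.lift (ZMod 257) L.gv) (PhiA (FreeAlgebra.ι (ZMod 257) i))
    = Matrix.scalar (Fin 2) (L.ev (FreeAlgebra.ι (ZMod 257) i))
  rw [h0]
  fin_cases i
  · show (FreeAlgebra.lift (ZMod 257) L.gv) (ge * gf * gb + gf * (ge * gf * gb) * ge)
      = Matrix.scalar (Fin 2) (L.ev ge)
    simp only [map_add, map_mul, next_e, next_f, next_b]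
    exact m1 _ _
  · show (FreeAlgebra.lift (ZMod 257) L.gv) (ge * gf * gc + gf * (ge * gf * gc) * ge)
      = Matrix.scalar (Fin 2) (L.ev gf)
    simp only [map_add, map_mul, next_e, next_f, next_c]
    exact m1 _ _
  · show (FreeAlgebra.lift (ZMod 257) L.gv) (gf * ge * gb + ge * (gf * ge * gb) * gf)
      = Matrix.scalar (Fin 2) (L.ev gb)
    simp only [map_add, map_mul, next_e, next_f, next_b]
    exact m2 _ _
  · show (FreeAlgebra.lift (ZMod 257) L.gv) (gf * ge * gc + ge * (gf * ge * gc) * gf)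
      = Matrix.scalar (Fin 2) (L.ev gc)
    simp only [map_add, map_mul, next_e, next_f, next_c]
    exact m2 _ _

theorem t_lev : S_LEV := by
  refine ⟨PhiA.toRingHom, ge, gf, fun r => (LSn r).R, fun r => (LSn r).ring,
    fun r => (LSn r).fin, fun r => (LSn r).nt, fun r => (LSn r).ev.toRingHom,
    fun r => (Matrix.scalar (Fin 2) : (LSn r).R →+* Matrix (Fin 2) (Fin 2) (LSn r).R),
    ?_, ?_, ?_⟩
  · intro r a
    exact DFunLike.congr_fun (shiftA (LSn r)) a
  · intro r
    refine ⟨?_, ?_, ?_⟩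
    · show (FreeAlgebra.lift (ZMod 257) (LSn r).gv) (ge * ge) = 0
      rw [map_mul, next_e]
      ext i j
      fin_cases i <;> fin_cases j <;> simp
    · show (FreeAlgebra.lift (ZMod 257) (LSn r).gv) (gf * gf) = 0
      rw [map_mul, next_f]
      ext i j
      fin_cases i <;> fin_cases j <;> simp
    · show (FreeAlgebra.lift (ZMod 257) (LSn r).gv) (ge * gf + gf * ge) = 1
      rw [map_add, map_mul, map_mul, next_e, next_f]
      ext i j
      fin_cases i <;> fin_cases j <;> simp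
  · intro r y
    show (FreeAlgebra.lift (ZMod 257) (LSn r).gv) ge * Matrix.scalar (Fin 2) y
      = Matrix.scalar (Fin 2) y * (FreeAlgebra.lift (ZMod 257) (LSn r).gv) ge
    rw [next_e]
    ext i j
    fin_cases i <;> fin_cases j <;> simp

end

end Pool.Agent.N749.MS
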