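import Pool.Agent.N682.MS.Stm

/-!
PROJECT MS (helper682), leaf PRM: permutation matrices (helper749).
-/

set_option autoImplicit false

namespace Pool.Agent.N749.MS

open Matrix Filter Topology Pool.Agent.N682.MS
open Pool.Agent.W661.RC (Mt)

noncomputable section

/-- permutation matrix, `P e_j = e_{p j}` -/
def pm {d : ℕ} (p : Equiv.Perm (Fin d)) : Mt d := Matrix.of fun i j => if i = p j then 1 else 0

theorem pm_apply {d : ℕ} (p : Equiv.Perm (Fin d)) (i j : Fin d) :
    pm p i j = if i = p j then 1 else 0 := rfl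

theorem pm_mul {d : ℕ} (p q : Equiv.Perm (Fin d)) : pm (p * q) = pm p * pm q := by
  ext i j
  rw [Matrix.mul_apply]
  simp only [pm_apply, Equiv.Perm.mul_apply]
  rw [Finset.sum_eq_single (q j)]
  · simp
  · intro k _ hk
    simp [hk]
  · intro h
    exact absurd (Finset.mem_univ _) h

theorem pm_one {d : ℕ} : pm (1 : Equiv.Perm (Fin d)) = 1 := by
  ext i j
  rw [pm_apply, Matrix.one_apply, Equiv.Perm.one_apply]

theorem pm_star {d : ℕ} (p : Equiv.Perm (Fin d)) : star (pm p) = pm p⁻¹ := by
  ext i j
  rw [Matrix.star_apply, pm_apply, pm_apply]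
  by_cases h : j = p i
  · rw [if_pos h, if_pos (by rw [h]; simp)]
    simp
  · have h2 : ¬ i = p⁻¹ j := by
      intro h3
      apply h
      rw [h3]; simp
    rw [if_neg h, if_neg h2]
    simp

/-- permutation matrices are unitary -/
def pu {d : ℕ} (p : Equiv.Perm (Fin d)) : Matrix.unitaryGroup (Fin d) ℂ :=
  ⟨pm p, by
    rw [Matrix.mem_unitaryGroup_iff, pm_star, ← pm_mul, mul_inv_cancel, pm_one]⟩

theorem hsn_pm {d : ℕ} (p q : Equiv.Perm (Fin d)) :
    hsn (pm p - pm q) = 2 * ((Nat.card {j : Fin d // p j ≠ q j} : ℝ) / d) := by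
  have h1 : ∀ j : Fin d, ((pm p - pm q)ᴴ * (pm p - pm q)) j j
      = if p j ≠ q j then (2 : ℂ) else 0 := by
    intro j
    rw [Matrix.mul_apply]
    simp only [Matrix.conjTranspose_apply, Matrix.sub_apply, pm_apply]
    by_cases h : p j = q j
    · simp [h]
    · have h2 : ∀ i : Fin d, star ((if i = p j then (1:ℂ) else 0) - if i = q j then 1 else 0) *
          ((if i = p j then (1:ℂ) else 0) - if i = q j then 1 else 0)
          = (if i = p j then (1:ℂ) else 0) + if i = q j then 1 else 0 := by
        intro i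
        by_cases a : i = p j
        · have b : ¬ i = q j := fun b => h (a.symm.trans b)
          simp only [if_pos a, if_neg b]
          simp
        · by_cases b : i = q j
          · simp only [if_neg a, if_pos b]
            simp
          · simp only [if_neg a, if_neg b]
            simp
      rw [Finset.sum_congr rfl fun i _ => h2 i, Finset.sum_add_distrib,
        Finset.sum_ite_eq' Finset.univ (p j), Finset.sum_ite_eq' Finset.univ (q j)]
      simp [h]
      norm_num
  have h2 : (Matrix.trace ((pm p - pm q)ᴴ * (pm p - pm q))).re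
      = 2 * (Nat.card {j : Fin d // p j ≠ q j} : ℝ) := by
    rw [Matrix.trace]
    simp only [Matrix.diag_apply, h1]
    rw [← Finset.sum_filter, Finset.sum_const, Nat.card_eq_fintype_card, Fintype.card_subtype]
    simp
    ring
  rw [hsn, h2, mul_div_assoc]

theorem t_prm : S_PRM := by
  intro G _ X _ _ σ g0 hσ hg0
  set d : ℕ → ℕ := fun m => Fintype.card (X m) with hd
  set e : ∀ m, X m ≃ Fin (d m) := fun m => Fintype.equivFin (X m) with he
  set ps : ∀ m, Equiv.Perm (X m) → Equiv.Perm (Fin (d m)) := fun m s => (e m).permCongr s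
    with hps
  have hmul : ∀ m s t, ps m (s * t) = ps m s * ps m t := by
    intro m s t
    ext j
    simp [hps]
  have hone : ∀ m, ps m 1 = 1 := by
    intro m
    ext j
    simp [hps]
  have hcard : ∀ (m : ℕ) (s t : Equiv.Perm (X m)),
      Nat.card {j : Fin (d m) // ps m s j ≠ ps m t j} = Nat.card {y : X m // s y ≠ t y} := by
    intro m s t
    refine Nat.card_congr (Equiv.subtypeEquiv (e m).symm fun j => ?_)
    simp [hps]
  refine ⟨d, fun m g => pu (ps m (σ m g)), ?_, ?_⟩
  · intro g h
    have h1 : ∀ m, hsn ((pu (ps m (σ m (g * h)))).val - (pu (ps m (σ m g))).val *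
        (pu (ps m (σ m h))).val)
        = 2 * ((Nat.card {y : X m // σ m (g * h) y ≠ σ m g (σ m h y)} : ℝ)
          / Fintype.card (X m)) := by
      intro m
      show hsn (pm (ps m (σ m (g * h))) - pm (ps m (σ m g)) * pm (ps m (σ m h))) = _
      rw [← pm_mul, ← hmul, hsn_pm, hcard]
      rfl
    have h2 := (hσ g h).const_mul 2
    rw [mul_zero] at h2
    exact h2.congr fun m => (h1 m).symm
  · intro hlim
    apply hg0
    have h1 : ∀ m, hsn ((pu (ps m (σ m g0))).val - 1)
        = 2 * ((Nat.card {y : X m // σ m g0 y ≠ y} : ℝ) / Fintype.card (X m)) := by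
      intro m
      show hsn (pm (ps m (σ m g0)) - 1) = _
      rw [← pm_one, ← hone, hsn_pm, hcard]
      rfl
    have h2 := hlim.const_mul (1 / 2)
    rw [mul_zero] at h2
    refine h2.congr fun m => ?_
    rw [h1 m]
    ring

end

end Pool.Agent.N749.MS
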